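import Pool.Agent.Q264.CF6

/-!
# A totally real cubic field with property (T) outside the two families

`K = ℚ(ρ)`, `ρ^3 + 22 ρ^2 + 12 ρ - 34 = 0`, of discriminant `1318132 = 2^2 · 329533`. The convex hull
of the totally positive integers has, up to totally positive units, the two triangular faces
`{1, e1, e2}` and `{e1, e2, e1 e2}` with `e1 = 1 - ρ`, `e2 = ρ^2 + ρ - 1`; so `K` has property (T). It
is none of the fields `K_{r,s}`, `K_n` because 2 is totally ramified in `K`.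
-/

set_option autoImplicit false

namespace Pool.Agent.Results.MP_6f6b5b_nt.PropertyTField

open NumberField Polynomial

/-- totally positive -/
def TotPos {K : Type} [Field K] (z : K) : Prop := ∀ φ : K →+* ℝ, 0 < φ z

/-- the trace dual of the ring of integers -/
def InDual {K : Type} [Field K] [NumberField K] (x : K) : Prop :=
  ∀ m : 𝓞 K, ∃ n : ℤ, Algebra.trace ℚ K (x * (m : K)) = n

/-- the set `Λ_q` -/
def Lam (K : Type) [Field K] [NumberField K] (q : ℕ) : Set K :=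
  {x | InDual x ∧ TotPos x ∧
    ∃ m : 𝓞 K, TotPos (m : K) ∧ Algebra.trace ℚ K (x * (m : K)) < q} ∪ {0}

/-- property (T): for every `q ≥ 1` each orbit `V x`, `x ∈ Λ_q`, contains an element of trace `< q`;
`V` is the group of the totally positive units -/
def PropT (K : Type) [Field K] [NumberField K] : Prop :=
  ∀ q : ℕ, 1 ≤ q → ∀ x ∈ Lam K q, ∃ u : (𝓞 K)ˣ, TotPos ((u : 𝓞 K) : K) ∧
    Algebra.trace ℚ K (x * ((u : 𝓞 K) : K)) < q

/-- `x (x - r) (x - s) - 1` -/
noncomputable def polyRS (r s : ℤ) : ℚ[X] := X * (X - C (r : ℚ)) * (X - C (s : ℚ)) - 1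

/-- `x^3 + (n+1) x^2 + (n-2) x - 1` -/
noncomputable def polyN (n : ℤ) : ℚ[X] :=
  X ^ 3 + C ((n : ℚ) + 1) * X ^ 2 + C ((n : ℚ) - 2) * X - 1

lemma propT {K : Type} [Field K] [NumberField K] {ρ : K} (G : Q264.CF.Gen K ρ) {p q r : ℝ}
    (H : Q264.CF.Roots p q r) : PropT K := by
  rintro n hn x (⟨hd, hx, m, hm, hlt⟩ | hx)
  · obtain ⟨u, hu, hle⟩ := G.dominate H hd hx hm
    exact ⟨u, hu, lt_of_le_of_lt hle hlt⟩
  · refine ⟨1, fun φ => by simp, ?_⟩
    rw [Set.mem_singleton_iff] at hx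
    rw [hx]
    simp
    omega

lemma root_rs {K : Type} [Field K] [NumberField K] {r s : ℤ}
    (e : K ≃+* AdjoinRoot (polyRS r s)) :
    ∃ α : K, α ^ 3 - ((r + s : ℤ) : K) * α ^ 2 + ((r * s : ℤ) : K) * α - 1 = 0 := by
  set β : AdjoinRoot (polyRS r s) := AdjoinRoot.root (polyRS r s) with hβ
  have h : AdjoinRoot.mk (polyRS r s) (polyRS r s) = 0 := AdjoinRoot.mk_self
  have h2 : AdjoinRoot.mk (polyRS r s) (X * (X - C (r : ℚ)) * (X - C (s : ℚ)) - 1) = 0 := h
  rw [map_sub, map_mul, map_mul, map_sub, map_sub, AdjoinRoot.mk_X, map_one] at h2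
  have hr : AdjoinRoot.mk (polyRS r s) (C (r : ℚ)) = (r : AdjoinRoot (polyRS r s)) :=
    map_intCast ((AdjoinRoot.mk (polyRS r s)).comp (C.comp (Int.castRingHom ℚ))) r
  have hs : AdjoinRoot.mk (polyRS r s) (C (s : ℚ)) = (s : AdjoinRoot (polyRS r s)) :=
    map_intCast ((AdjoinRoot.mk (polyRS r s)).comp (C.comp (Int.castRingHom ℚ))) s
  rw [hr, hs] at h2
  refine ⟨e.symm β, ?_⟩
  have h3 := congrArg e.symm h2
  rw [map_sub, map_mul, map_mul, map_sub, map_sub, map_one, map_zero, map_intCast,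
    map_intCast] at h3
  push_cast
  linear_combination h3

lemma root_n {K : Type} [Field K] [NumberField K] {n : ℤ}
    (e : K ≃+* AdjoinRoot (polyN n)) :
    ∃ α : K, α ^ 3 - ((-(n + 1) : ℤ) : K) * α ^ 2 + ((n - 2 : ℤ) : K) * α - 1 = 0 := by
  set β : AdjoinRoot (polyN n) := AdjoinRoot.root (polyN n) with hβ
  have h : AdjoinRoot.mk (polyN n) (polyN n) = 0 := AdjoinRoot.mk_self
  have h2 : AdjoinRoot.mk (polyN n)
    (X ^ 3 + C ((n : ℚ) + 1) * X ^ 2 + C ((n : ℚ) - 2) * X - 1) = 0 := h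
  rw [map_sub, map_add, map_add, map_mul, map_mul, map_pow, map_pow, AdjoinRoot.mk_X,
    map_one] at h2
  have h1 : AdjoinRoot.mk (polyN n) (C ((n : ℚ) + 1)) = ((n + 1 : ℤ) : AdjoinRoot (polyN n)) := by
    rw [show ((n : ℚ) + 1) = ((n + 1 : ℤ) : ℚ) by push_cast; ring]
    exact map_intCast ((AdjoinRoot.mk (polyN n)).comp (C.comp (Int.castRingHom ℚ))) (n + 1)
  have h0 : AdjoinRoot.mk (polyN n) (C ((n : ℚ) - 2)) = ((n - 2 : ℤ) : AdjoinRoot (polyN n)) := by
    rw [show ((n : ℚ) - 2) = ((n - 2 : ℤ) : ℚ) by push_cast; ring]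
    exact map_intCast ((AdjoinRoot.mk (polyN n)).comp (C.comp (Int.castRingHom ℚ))) (n - 2)
  rw [h1, h0] at h2
  refine ⟨e.symm β, ?_⟩
  have h3 := congrArg e.symm h2
  rw [map_sub, map_add, map_add, map_mul, map_mul, map_pow, map_pow, map_one, map_zero,
    map_intCast, map_intCast] at h3
  push_cast at h3 ⊢
  linear_combination h3

theorem result :
    ∃ (K : Type) (_ : Field K) (_ : NumberField K),
      IsTotallyReal K ∧ Module.finrank ℚ K = 3 ∧ PropT K ∧
      (∀ r s : ℤ, 1 ≤ r → r ≤ s - 2 → IsEmpty (K ≃+* AdjoinRoot (polyRS r s))) ∧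
      ∀ n : ℤ, 0 < n → IsEmpty (K ≃+* AdjoinRoot (polyN n)) := by
  obtain ⟨K, iF, iN, ρ, G⟩ := Q264.CF.exists_gen
  obtain ⟨p, q, r, H⟩ := Q264.CF.exists_roots
  refine ⟨K, iF, iN, G.totallyReal H, G.finrank_eq, propT G H, ?_, ?_⟩
  · intro r s hr hs
    refine ⟨fun e => ?_⟩
    obtain ⟨α, hα⟩ := root_rs e
    have hirr : Irreducible (Q264.CF.cub (r + s) (r * s) 1) := by
      refine Q264.CF.cub_irr ?_ ?_
      · intro h
        rcases eq_or_lt_of_le hr with h0 | h0
        · subst h0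
          omega
        · have h1 : 0 ≤ (r - 2) * (s - 3) := mul_nonneg (by linarith) (by linarith)
          nlinarith
      · intro h
        have h1 : 0 < r * s := mul_pos (by linarith) (by linarith)
        nlinarith
    obtain ⟨h1, h2⟩ := G.parity H hirr hα
    rcases Int.even_or_odd r with h3 | h3 <;> rcases Int.even_or_odd s with h4 | h4
    · obtain ⟨k, hk⟩ := h3
      obtain ⟨l, hl⟩ := h4
      omega
    · obtain ⟨k, hk⟩ := h3
      obtain ⟨l, hl⟩ := h2
      have : r * s = 2 * (k * s) := by rw [hk]; ring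
      omega
    · obtain ⟨k, hk⟩ := h4
      obtain ⟨l, hl⟩ := h2
      have : r * s = 2 * (r * k) := by rw [hk]; ring
      omega
    · obtain ⟨k, hk⟩ := h3
      obtain ⟨l, hl⟩ := h4
      omega
  · intro n hn
    refine ⟨fun e => ?_⟩
    obtain ⟨α, hα⟩ := root_n e
    have hirr : Irreducible (Q264.CF.cub (-(n + 1)) (n - 2) 1) := by
      refine Q264.CF.cub_irr ?_ ?_
      · omega
      · omega
    obtain ⟨h1, h2⟩ := G.parity H hirr hα
    omega

end Pool.Agent.Results.MP_6f6b5b_nt.PropertyTField
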